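import Mathlib

/-!
Neumann eigenvalues by the Courant-Fischer min-max formula, and the optimal monotonicity
constant for bounded convex domains.
-/

set_option autoImplicit false

namespace Pool.Agent.Work.MP_382727_an

open MeasureTheory

/-- A bounded convex domain: a nonempty bounded open connected convex set. -/
def IsConvexDomain {d : ℕ} (Ω : Set (EuclideanSpace ℝ (Fin d))) : Prop :=
  Ω.Nonempty ∧ Bornology.IsBounded Ω ∧ IsOpen Ω ∧ IsConnected Ω ∧ Convex ℝ Ω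

/-- `u` is `C^1` in `Ω`, and `u` and its gradient are square integrable over `Ω`. -/
def FiniteEnergy {d : ℕ} (Ω : Set (EuclideanSpace ℝ (Fin d)))
    (u : EuclideanSpace ℝ (Fin d) → ℝ) : Prop :=
  ContDiffOn ℝ 1 u Ω ∧ IntegrableOn (fun x => u x ^ 2) Ω ∧
    IntegrableOn (fun x => ‖gradient u x‖ ^ 2) Ω

/-- The Neumann eigenvalue `μ_k(Ω)` (numbered from `μ_0 = 0`) by the min-max formula: the
infimum, over `(k+1)`-dimensional spaces `V` of finite energy functions whose nonzero members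
are nonzero in `L^2(Ω)`, of the upper bounds `lam` of the Rayleigh quotient on `V`. -/
noncomputable def neumannEig {d : ℕ} (Ω : Set (EuclideanSpace ℝ (Fin d))) (k : ℕ) : ℝ :=
  sInf {lam : ℝ | ∃ V : Submodule ℝ (EuclideanSpace ℝ (Fin d) → ℝ),
    Module.finrank ℝ V = k + 1 ∧ (∀ u ∈ V, FiniteEnergy Ω u) ∧
    ∀ u ∈ V, u ≠ 0 → 0 < ∫ x in Ω, u x ^ 2 ∧
      ∫ x in Ω, ‖gradient u x‖ ^ 2 ≤ lam * ∫ x in Ω, u x ^ 2}

/-- `α_{k,d}`: the infimum of `μ_k(Ω₁) / μ_k(Ω₂)` over bounded convex domains `Ω₁ ⊆ Ω₂` in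
`ℝ^d`. -/
noncomputable def alpha (k d : ℕ) : ℝ :=
  sInf {r : ℝ | ∃ Ω₁ Ω₂ : Set (EuclideanSpace ℝ (Fin d)),
    IsConvexDomain Ω₁ ∧ IsConvexDomain Ω₂ ∧ Ω₁ ⊆ Ω₂ ∧ r = neumannEig Ω₁ k / neumannEig Ω₂ k}

end Pool.Agent.Work.MP_382727_an
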