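import Mathlib
import Pool.Agent.Work.MP_382727_an.Defs

-- merged part: Pool.Agent.Work.MP_382727_an.Tensor
section
/-!
The mean squared two-point oscillation of a function and its tensorisation.
-/

set_option autoImplicit false

namespace Pool.Agent.Work.MP_382727_an

open MeasureTheory Set Function
open scoped ENNReal

/-- Squared difference as an extended nonnegative real. -/
noncomputable def sqd (a b : ℝ) : ℝ≥0∞ := ENNReal.ofReal ((a - b) ^ 2)

theorem sqd_comm (a b : ℝ) : sqd a b = sqd b a := by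
  unfold sqd; congr 1; ring

theorem measurable_sqd {X : Type*} [MeasurableSpace X] {f g : X → ℝ} (hf : Measurable f)
    (hg : Measurable g) : Measurable fun x => sqd (f x) (g x) := by
  unfold sqd; fun_prop

theorem sqd_quad (a b c d : ℝ) :
    sqd a b + sqd c d ≤ sqd a c + sqd c b + sqd b d + sqd d a := by
  unfold sqd
  rw [← ENNReal.ofReal_add (sq_nonneg _) (sq_nonneg _),
    ← ENNReal.ofReal_add (sq_nonneg _) (sq_nonneg _),
    ← ENNReal.ofReal_add (by positivity) (sq_nonneg _),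
    ← ENNReal.ofReal_add (by positivity) (sq_nonneg _)]
  apply ENNReal.ofReal_le_ofReal
  linarith only [sq_nonneg (a + b - c - d), sq_nonneg (a + b - c - d)]

/-- Mean squared oscillation (twice the variance for a probability measure). -/
noncomputable def osc {X : Type*} [MeasurableSpace X] (μ : Measure X) (f : X → ℝ) : ℝ≥0∞ :=
  ∫⁻ p, ∫⁻ q, sqd (f p) (f q) ∂μ ∂μ

section two

variable {α β : Type*} [MeasurableSpace α] [MeasurableSpace β] (μ : Measure α) (ν : Measure β)
  [IsProbabilityMeasure μ] [IsProbabilityMeasure ν]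

theorem iter4 (F : (α × β) × (α × β) → ℝ≥0∞) (hF : Measurable F) :
    ∫⁻ z, F z ∂((μ.prod ν).prod (μ.prod ν))
      = ∫⁻ x, ∫⁻ y, ∫⁻ x', ∫⁻ y', F ((x, y), (x', y')) ∂ν ∂μ ∂ν ∂μ := by
  rw [lintegral_prod _ hF.aemeasurable,
    lintegral_prod _ hF.lintegral_prod_right'.aemeasurable]
  refine lintegral_congr fun x => lintegral_congr fun y => ?_
  exact lintegral_prod _ (hF.comp measurable_prodMk_left).aemeasurable

theorem swap3 (K : α → β → α → ℝ≥0∞)
    (hK : Measurable fun z : α × β × α => K z.1 z.2.1 z.2.2) :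
    ∫⁻ x, ∫⁻ y, ∫⁻ x', K x y x' ∂μ ∂ν ∂μ = ∫⁻ x, ∫⁻ y, ∫⁻ x', K x' y x ∂μ ∂ν ∂μ := by
  have h1 : Measurable (uncurry fun x y => ∫⁻ x', K x y x' ∂μ) := by
    apply Measurable.lintegral_prod_right (f := fun (p : α × β) x' => K p.1 p.2 x')
    exact hK.comp (f := fun z : (α × β) × α => (z.1.1, z.1.2, z.2)) (by fun_prop)
  have h2 : Measurable (uncurry fun x y => ∫⁻ x', K x' y x ∂μ) := by
    apply Measurable.lintegral_prod_right (f := fun (p : α × β) x' => K x' p.2 p.1)
    exact hK.comp (f := fun z : (α × β) × α => (z.2, z.1.2, z.1.1)) (by fun_prop)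
  rw [lintegral_lintegral_swap h1.aemeasurable, lintegral_lintegral_swap h2.aemeasurable]
  refine lintegral_congr fun y => ?_
  apply lintegral_lintegral_swap
  exact (hK.comp (f := fun z : α × α => (z.1, y, z.2)) (by fun_prop)).aemeasurable

theorem osc_prod_le (f : α × β → ℝ) (hf : Measurable f) :
    osc (μ.prod ν) f ≤ ∫⁻ y, osc μ (fun x => f (x, y)) ∂ν + ∫⁻ x, osc ν (fun y => f (x, y)) ∂μ := by
  set A := ∫⁻ y, osc μ (fun x => f (x, y)) ∂ν with hA
  set B := ∫⁻ x, osc ν (fun y => f (x, y)) ∂μ with hB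
  set M := (μ.prod ν).prod (μ.prod ν) with hM
  have ma : Measurable fun z : (α × β) × (α × β) => f (z.1.1, z.1.2) := by fun_prop
  have mb : Measurable fun z : (α × β) × (α × β) => f (z.2.1, z.2.2) := by fun_prop
  have mc : Measurable fun z : (α × β) × (α × β) => f (z.2.1, z.1.2) := by fun_prop
  have md : Measurable fun z : (α × β) × (α × β) => f (z.1.1, z.2.2) := by fun_prop
  have e1 : ∫⁻ z, sqd (f (z.1.1, z.1.2)) (f (z.2.1, z.2.2)) ∂M = osc (μ.prod ν) f := by
    rw [hM, lintegral_prod _ (measurable_sqd ma mb).aemeasurable]; rfl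
  have e2 : ∫⁻ z, sqd (f (z.2.1, z.1.2)) (f (z.1.1, z.2.2)) ∂M = osc (μ.prod ν) f := by
    rw [← e1, hM, iter4 μ ν _ (measurable_sqd mc md), iter4 μ ν _ (measurable_sqd ma mb)]
    refine (swap3 μ ν (fun x y x' => ∫⁻ y', sqd (f (x, y)) (f (x', y')) ∂ν) ?_).symm
    apply Measurable.lintegral_prod_right
      (f := fun (z : α × β × α) y' => sqd (f (z.1, z.2.1)) (f (z.2.2, y')))
    exact measurable_sqd (by fun_prop) (by fun_prop)
  have hmA : Measurable (uncurry fun x y => ∫⁻ x', sqd (f (x, y)) (f (x', y)) ∂μ) := by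
    apply Measurable.lintegral_prod_right
      (f := fun (z : α × β) x' => sqd (f (z.1, z.2)) (f (x', z.2)))
    exact measurable_sqd (by fun_prop) (by fun_prop)
  have hmB : Measurable (uncurry fun y x' => ∫⁻ y', sqd (f (x', y)) (f (x', y')) ∂ν) := by
    apply Measurable.lintegral_prod_right
      (f := fun (z : β × α) y' => sqd (f (z.2, z.1)) (f (z.2, y')))
    exact measurable_sqd (by fun_prop) (by fun_prop)
  have s1 : ∫⁻ z, sqd (f (z.1.1, z.1.2)) (f (z.2.1, z.1.2)) ∂M = A := by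
    rw [hM, iter4 μ ν _ (measurable_sqd ma mc)]
    simp only [lintegral_const, measure_univ, mul_one]
    rw [lintegral_lintegral_swap hmA.aemeasurable]; rfl
  have s2 : ∫⁻ z, sqd (f (z.2.1, z.1.2)) (f (z.2.1, z.2.2)) ∂M = B := by
    rw [hM, iter4 μ ν _ (measurable_sqd mc mb)]
    simp only [lintegral_const, measure_univ, mul_one]
    rw [lintegral_lintegral_swap hmB.aemeasurable]; rfl
  have s3 : ∫⁻ z, sqd (f (z.2.1, z.2.2)) (f (z.1.1, z.2.2)) ∂M = A := by
    rw [hM, iter4 μ ν _ (measurable_sqd mb md)]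
    simp only [lintegral_const, measure_univ, mul_one]
    have h1 : ∀ x, ∫⁻ x', ∫⁻ y', sqd (f (x', y')) (f (x, y')) ∂ν ∂μ
        = ∫⁻ y', ∫⁻ x', sqd (f (x, y')) (f (x', y')) ∂μ ∂ν := by
      intro x
      rw [lintegral_lintegral_swap]
      · simp only [sqd_comm (f (x, _))]
      · exact (measurable_sqd (by fun_prop) (by fun_prop)).aemeasurable
    simp only [h1]
    rw [lintegral_lintegral_swap hmA.aemeasurable]; rfl
  have s4 : ∫⁻ z, sqd (f (z.1.1, z.2.2)) (f (z.1.1, z.1.2)) ∂M = B := by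
    rw [hM, iter4 μ ν _ (measurable_sqd md ma)]
    simp only [lintegral_const, measure_univ, mul_one]
    refine lintegral_congr fun x => lintegral_congr fun y => lintegral_congr fun y' => ?_
    exact sqd_comm _ _
  have key : osc (μ.prod ν) f + osc (μ.prod ν) f ≤ A + B + A + B := by
    calc osc (μ.prod ν) f + osc (μ.prod ν) f
        = ∫⁻ z, (sqd (f (z.1.1, z.1.2)) (f (z.2.1, z.2.2))
            + sqd (f (z.2.1, z.1.2)) (f (z.1.1, z.2.2))) ∂M := by
          rw [lintegral_add_left (measurable_sqd ma mb), e1, e2]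
      _ ≤ ∫⁻ z, (sqd (f (z.1.1, z.1.2)) (f (z.2.1, z.1.2))
            + sqd (f (z.2.1, z.1.2)) (f (z.2.1, z.2.2))
            + sqd (f (z.2.1, z.2.2)) (f (z.1.1, z.2.2))
            + sqd (f (z.1.1, z.2.2)) (f (z.1.1, z.1.2))) ∂M :=
          lintegral_mono fun z => sqd_quad _ _ _ _
      _ = A + B + A + B := by
          rw [lintegral_add_right _ (measurable_sqd md ma),
            lintegral_add_right _ (measurable_sqd mb md),
            lintegral_add_right _ (measurable_sqd mc mb), s1, s2, s3, s4]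
  have key2 : 2 * osc (μ.prod ν) f ≤ 2 * (A + B) := by
    rw [two_mul, two_mul, ← add_assoc]; exact key
  exact (ENNReal.mul_le_mul_iff_right (by norm_num) (by norm_num)).mp key2

end two

theorem osc_comp {X Y : Type*} [MeasurableSpace X] [MeasurableSpace Y] {μ : Measure X}
    {ν : Measure Y} (e : X ≃ᵐ Y) (he : MeasurePreserving e μ ν) (f : Y → ℝ) :
    osc ν f = osc μ (fun x => f (e x)) := by
  unfold osc
  rw [← he.lintegral_comp_emb e.measurableEmbedding]
  refine lintegral_congr fun x => ?_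
  rw [← he.lintegral_comp_emb e.measurableEmbedding]

theorem tensor : ∀ (n : ℕ) (μ : Fin n → Measure ℝ) [∀ i, IsProbabilityMeasure (μ i)]
    (S : Fin n → Set ℝ) (_ : ∀ i, ∀ᵐ t ∂μ i, t ∈ S i)
    (f : (Fin n → ℝ) → ℝ) (_ : Measurable f)
    (G : Fin n → (Fin n → ℝ) → ℝ≥0∞) (_ : ∀ i, Measurable (G i))
    (_ : ∀ i x, (∀ j, x j ∈ S j) →
      osc (μ i) (fun s => f (update x i s)) ≤ ∫⁻ s, G i (update x i s) ∂μ i),
    osc (Measure.pi μ) f ≤ ∑ i, ∫⁻ x, G i x ∂(Measure.pi μ) := by
  intro n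
  induction n with
  | zero =>
    intro μ _ S _ f _ G _ _
    have : ∀ p q : Fin 0 → ℝ, sqd (f p) (f q) = 0 := fun p q => by
      rw [Subsingleton.elim p q]; simp [sqd]
    simp [osc, this]
  | succ n ih =>
    intro μ _ S hS f hf G hG h
    have he := (measurePreserving_piFinSuccAbove μ 0).symm
    set e := (MeasurableEquiv.piFinSuccAbove (fun _ : Fin (n + 1) => ℝ) 0).symm with hedef
    have he_apply : ∀ p : ℝ × (Fin n → ℝ), e p = Fin.cons p.1 p.2 := by
      intro p
      simp [hedef, MeasurableEquiv.piFinSuccAbove_symm_apply, Fin.insertNthEquiv,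
        Fin.insertNth_zero']
    have hcons : Measurable fun p : ℝ × (Fin n → ℝ) => (Fin.cons p.1 p.2 : Fin (n + 1) → ℝ) := by
      have := e.measurable
      rwa [show (e : ℝ × (Fin n → ℝ) → Fin (n + 1) → ℝ) = fun p => Fin.cons p.1 p.2 from
        funext he_apply] at this
    set ν : Measure (Fin n → ℝ) := Measure.pi fun j => μ j.succ with hν
    have he' : MeasurePreserving e ((μ 0).prod ν) (Measure.pi μ) := he
    have hint : ∀ i, ∫⁻ x, G i x ∂(Measure.pi μ)
        = ∫⁻ p, G i (Fin.cons p.1 p.2) ∂((μ 0).prod ν) := by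
      intro i
      rw [← he'.lintegral_comp_emb e.measurableEmbedding]
      simp only [he_apply]
    rw [osc_comp e he', Fin.sum_univ_succ]
    simp only [he_apply]
    refine (osc_prod_le (μ 0) ν (fun p => f (Fin.cons p.1 p.2)) (hf.comp hcons)).trans ?_
    apply add_le_add
    · rw [hint, lintegral_prod_symm (fun p : ℝ × (Fin n → ℝ) => G 0 (Fin.cons p.1 p.2))
        ((hG 0).comp hcons).aemeasurable]
      apply lintegral_mono_ae
      have hae : ∀ᵐ y ∂ν, ∀ j, y j ∈ S (Fin.succ j) :=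
        Filter.eventually_all.2 fun j => Measure.tendsto_eval_ae_ae.eventually (hS j.succ)
      obtain ⟨x₀, hx₀⟩ := (hS 0).exists
      filter_upwards [hae] with y hy
      have := h 0 (Fin.cons x₀ y) (fun j => Fin.cases hx₀ hy j)
      simpa only [Fin.update_cons_zero] using this
    · have h2 : ∑ i : Fin n, ∫⁻ x, G i.succ x ∂(Measure.pi μ)
          = ∫⁻ x, ∑ i : Fin n, ∫⁻ y, G i.succ (Fin.cons x y) ∂ν ∂(μ 0) := by
        rw [lintegral_finsetSum]
        · refine Finset.sum_congr rfl fun i _ => ?_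
          rw [hint, lintegral_prod (fun p : ℝ × (Fin n → ℝ) => G i.succ (Fin.cons p.1 p.2))
            ((hG _).comp hcons).aemeasurable]
        · intro i _
          exact ((hG i.succ).comp hcons).lintegral_prod_right'
      rw [h2]
      apply lintegral_mono_ae
      filter_upwards [hS 0] with x hx
      refine ih (fun j => μ j.succ) (fun j => S j.succ) (fun j => hS j.succ)
        (fun y => f (Fin.cons x y)) (hf.comp (hcons.comp measurable_prodMk_left))
        (fun i y => G i.succ (Fin.cons x y))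
        (fun i => (hG _).comp (hcons.comp measurable_prodMk_left)) ?_
      intro i y hy
      have := h i.succ (Fin.cons x y) (fun j => Fin.cases hx hy j)
      simpa only [Fin.cons_update] using this

theorem osc_eq {X : Type*} [MeasurableSpace X] (μ : Measure X) [IsProbabilityMeasure μ]
    (f : X → ℝ) (hf : MemLp f 2 μ) :
    osc μ f = ENNReal.ofReal (2 * ∫ x, f x ^ 2 ∂μ - 2 * (∫ x, f x ∂μ) ^ 2) := by
  have h1 : Integrable f μ := hf.integrable (by norm_num)
  have h2 : Integrable (fun x => f x ^ 2) μ := hf.integrable_sq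
  have hq : ∀ p, ∫ q, (f p - f q) ^ 2 ∂μ
      = f p ^ 2 - 2 * (∫ x, f x ∂μ) * f p + ∫ x, f x ^ 2 ∂μ := by
    intro p
    have : (fun q => (f p - f q) ^ 2) = fun q => (f p ^ 2 - 2 * f p * f q) + f q ^ 2 := by
      funext q; ring
    have i1 : Integrable (fun q => 2 * f p * f q) μ := h1.const_mul _
    have i2 : Integrable (fun q => f p ^ 2 - 2 * f p * f q) μ := (integrable_const _).sub i1
    rw [this, integral_add i2 h2, integral_sub (integrable_const _) i1, integral_const_mul]
    simp only [integral_const, probReal_univ, smul_eq_mul, one_mul]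
    ring
  have inner : ∀ p, ∫⁻ q, sqd (f p) (f q) ∂μ
      = ENNReal.ofReal (f p ^ 2 - 2 * (∫ x, f x ∂μ) * f p + ∫ x, f x ^ 2 ∂μ) := by
    intro p
    have h3 : Integrable (fun q => (f p - f q) ^ 2) μ :=
      ((memLp_const (f p)).sub hf).integrable_sq
    unfold sqd
    rw [← ofReal_integral_eq_lintegral_ofReal h3 (ae_of_all _ fun q => sq_nonneg _), hq]
  unfold osc
  simp only [inner]
  have i1 : Integrable (fun p => 2 * (∫ x, f x ∂μ) * f p) μ := h1.const_mul _
  have i2 : Integrable (fun p => f p ^ 2 - 2 * (∫ x, f x ∂μ) * f p) μ := h2.sub i1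
  have h4 : Integrable
      (fun p => f p ^ 2 - 2 * (∫ x, f x ∂μ) * f p + ∫ x, f x ^ 2 ∂μ) μ :=
    i2.add (integrable_const _)
  rw [← ofReal_integral_eq_lintegral_ofReal h4]
  · congr 1
    rw [integral_add i2 (integrable_const _), integral_sub h2 i1, integral_const_mul]
    simp only [integral_const, probReal_univ, smul_eq_mul, one_mul]
    ring
  · refine ae_of_all _ fun p => ?_
    have h3 : 0 ≤ ∫ q, (f p - f q) ^ 2 ∂μ := integral_nonneg fun q => sq_nonneg _
    rw [hq] at h3
    exact h3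

theorem osc_le {X : Type*} [MeasurableSpace X] (μ : Measure X) [IsProbabilityMeasure μ]
    (f : X → ℝ) (hf : AEStronglyMeasurable f μ) (c : ℝ) :
    osc μ f ≤ 2 * ∫⁻ x, sqd (f x) c ∂μ := by
  by_cases hfin : ∫⁻ x, sqd (f x) c ∂μ = ∞
  · rw [hfin]; simp
  have hg : AEStronglyMeasurable (fun x => f x - c) μ := hf.sub aestronglyMeasurable_const
  have hi : Integrable (fun x => (f x - c) ^ 2) μ := by
    refine ⟨hg.pow 2, ?_⟩
    rw [hasFiniteIntegral_iff_ofReal (ae_of_all _ fun q => sq_nonneg _)]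
    exact lt_top_iff_ne_top.mpr hfin
  have hL : MemLp (fun x => f x - c) 2 μ := (memLp_two_iff_integrable_sq hg).mpr hi
  have e : osc μ f = osc μ (fun x => f x - c) := by
    unfold osc sqd
    simp only [sub_sub_sub_cancel_right]
  rw [e, osc_eq μ _ hL]
  unfold sqd
  rw [← ofReal_integral_eq_lintegral_ofReal hi (ae_of_all _ fun q => sq_nonneg _),
    ← ENNReal.ofReal_ofNat 2, ← ENNReal.ofReal_mul (by norm_num)]
  apply ENNReal.ofReal_le_ofReal
  linarith only [sq_nonneg (∫ x, f x - c ∂μ), sq_nonneg (∫ (x : X), f x - c ∂μ)]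

end Pool.Agent.Work.MP_382727_an
end

-- merged part: Pool.Agent.Work.MP_382727_an.OneD
section
/-!
An elementary Poincare inequality on an interval of length one.
-/

set_option autoImplicit false

namespace Pool.Agent.Work.MP_382727_an

open MeasureTheory Set Function
open scoped ENNReal

theorem cs_interval {p q : ℝ} (hpq : p ≤ q) {h : ℝ → ℝ} (hc : ContinuousOn h (Icc p q)) :
    (∫ x in p..q, h x) ^ 2 ≤ (q - p) * ∫ x in p..q, h x ^ 2 := by
  rcases hpq.eq_or_lt with rfl | hlt
  · simp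
  have hc' : ContinuousOn h (uIcc p q) := by rwa [uIcc_of_le hpq]
  have i1 : IntervalIntegrable h volume p q := hc'.intervalIntegrable
  have i2 : IntervalIntegrable (fun x => h x ^ 2) volume p q := (hc'.pow 2).intervalIntegrable
  set I := ∫ x in p..q, h x with hI
  set m := I / (q - p) with hm
  have hl : 0 < q - p := sub_pos.mpr hlt
  have h0 : 0 ≤ ∫ x in p..q, (h x - m) ^ 2 :=
    intervalIntegral.integral_nonneg hpq fun x _ => sq_nonneg _
  have e : (fun x => (h x - m) ^ 2) = fun x => (h x ^ 2 - 2 * m * h x) + m ^ 2 := by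
    funext x; ring
  have i3 : IntervalIntegrable (fun x => 2 * m * h x) volume p q := i1.const_mul _
  have i4 : IntervalIntegrable (fun x => h x ^ 2 - 2 * m * h x) volume p q := i2.sub i3
  rw [e, intervalIntegral.integral_add i4 intervalIntegrable_const,
    intervalIntegral.integral_sub i2 i3, intervalIntegral.integral_const_mul,
    intervalIntegral.integral_const, smul_eq_mul, ← hI] at h0
  have hmI : m * (q - p) = I := by rw [hm]; field_simp
  rw [← hmI] at h0 ⊢
  linarith only [hpq, h0, mul_nonneg_of_nonpos_of_nonpos (Mathlib.Tactic.Linarith.sub_nonpos_of_le hpq) (Mathlib.Tactic.Linarith.sub_nonpos_of_le h0)]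

theorem seg_bound {p q : ℝ} (hpq : p ≤ q) {g g' : ℝ → ℝ}
    (hd : ∀ t ∈ Icc p q, HasDerivAt g (g' t) t) (hc : ContinuousOn g' (Icc p q)) :
    sqd (g q) (g p) ≤ ENNReal.ofReal (q - p) * ∫⁻ x in Ioo p q, ENNReal.ofReal (g' x ^ 2) := by
  have hc' : ContinuousOn g' (uIcc p q) := by rwa [uIcc_of_le hpq]
  have e1 : ∫ x in p..q, g' x = g q - g p :=
    intervalIntegral.integral_eq_sub_of_hasDerivAt (by rwa [uIcc_of_le hpq])
      hc'.intervalIntegrable
  have i2 : IntegrableOn (fun x => g' x ^ 2) (Ioo p q) volume :=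
    ((hc.pow 2).integrableOn_Icc).mono_set Ioo_subset_Icc_self
  rw [← ofReal_integral_eq_lintegral_ofReal i2 (ae_of_all _ fun x => sq_nonneg _),
    ← ENNReal.ofReal_mul (sub_nonneg.mpr hpq), ← integral_Ioc_eq_integral_Ioo,
    ← intervalIntegral.integral_of_le hpq]
  unfold sqd
  apply ENNReal.ofReal_le_ofReal
  rw [← e1]
  exact cs_interval hpq hc

theorem lint_lin_right (c : ℝ) :
    ∫⁻ t in Ioo c (c + 1 / 2), ENNReal.ofReal (t - c) = ENNReal.ofReal (1 / 8) := by
  have i1 : IntegrableOn (fun t : ℝ => t - c) (Ioo c (c + 1 / 2)) volume :=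
    (by fun_prop : Continuous fun t : ℝ => t - c).continuousOn.integrableOn_Icc.mono_set
      Ioo_subset_Icc_self
  rw [← ofReal_integral_eq_lintegral_ofReal i1, ← integral_Ioc_eq_integral_Ioo,
    ← intervalIntegral.integral_of_le (by linarith only [])]
  · congr 1
    rw [intervalIntegral.integral_comp_sub_right (fun t => t) c, integral_id]
    ring
  · filter_upwards [ae_restrict_mem measurableSet_Ioo] with t ht
    exact sub_nonneg.mpr ht.1.le

theorem lint_lin_left (c : ℝ) :
    ∫⁻ t in Ioo (c - 1 / 2) c, ENNReal.ofReal (c - t) = ENNReal.ofReal (1 / 8) := by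
  have i1 : IntegrableOn (fun t : ℝ => c - t) (Ioo (c - 1 / 2) c) volume :=
    (by fun_prop : Continuous fun t : ℝ => c - t).continuousOn.integrableOn_Icc.mono_set
      Ioo_subset_Icc_self
  rw [← ofReal_integral_eq_lintegral_ofReal i1, ← integral_Ioc_eq_integral_Ioo,
    ← intervalIntegral.integral_of_le (by linarith only [])]
  · congr 1
    rw [intervalIntegral.integral_comp_sub_left (fun t => t) c, integral_id]
    ring
  · filter_upwards [ae_restrict_mem measurableSet_Ioo] with t ht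
    exact sub_nonneg.mpr ht.2.le

theorem prob_Ioo (a : ℝ) : IsProbabilityMeasure (volume.restrict (Ioo a (a + 1))) :=
  ⟨by simp⟩

theorem oneD (a : ℝ) {g g' : ℝ → ℝ} (hd : ∀ t ∈ Ioo a (a + 1), HasDerivAt g (g' t) t)
    (hc : ContinuousOn g' (Ioo a (a + 1))) :
    osc (volume.restrict (Ioo a (a + 1))) g
      ≤ ∫⁻ t in Ioo a (a + 1), ENNReal.ofReal (1 / 4) * ENNReal.ofReal (g' t ^ 2) := by
  have := prob_Ioo a
  have hgc : ContinuousOn g (Ioo a (a + 1)) := fun t ht =>
    (hd t ht).continuousAt.continuousWithinAt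
  set c := a + 1 / 2 with hcdef
  refine (osc_le _ g (hgc.aestronglyMeasurable measurableSet_Ioo) (g c)).trans ?_
  have hsplit : ∀ F : ℝ → ℝ≥0∞, ∫⁻ t in Ioo a (a + 1), F t
      = (∫⁻ t in Ioo (c - 1 / 2) c, F t) + ∫⁻ t in Ioo c (c + 1 / 2), F t := by
    intro F
    have e1 : Ioo a (a + 1) = Ioo (c - 1 / 2) c ∪ Ico c (c + 1 / 2) := by
      rw [Ioo_union_Ico_eq_Ioo (by linarith only []) (by linarith only [])]
      congr 1 <;> rw [hcdef] <;> ring
    rw [e1, lintegral_union measurableSet_Ico, ← restrict_Ioo_eq_restrict_Ico]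
    exact Set.disjoint_left.mpr fun t h1 h2 => absurd h1.2 (not_lt.mpr h2.1)
  set Lf := ∫⁻ x in Ioo (c - 1 / 2) c, ENNReal.ofReal (g' x ^ 2) with hLf
  set Rt := ∫⁻ x in Ioo c (c + 1 / 2), ENNReal.ofReal (g' x ^ 2) with hRt
  have hR : ∫⁻ t in Ioo c (c + 1 / 2), sqd (g t) (g c) ≤ ENNReal.ofReal (1 / 8) * Rt := by
    rw [← lint_lin_right c, ← lintegral_mul_const _ (by fun_prop)]
    apply setLIntegral_mono' measurableSet_Ioo
    intro t ht
    have hsub : Icc c t ⊆ Ioo a (a + 1) := fun x hx =>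
      ⟨by linarith only [hcdef, hx, hx.1], by linarith only [hcdef, hx, ht, hx.2, ht.2]⟩
    refine (seg_bound ht.1.le (fun x hx => hd x (hsub hx)) (hc.mono hsub)).trans ?_
    gcongr
    exact lintegral_mono_set (Ioo_subset_Ioo_right ht.2.le)
  have hL : ∫⁻ t in Ioo (c - 1 / 2) c, sqd (g t) (g c) ≤ ENNReal.ofReal (1 / 8) * Lf := by
    rw [← lint_lin_left c, ← lintegral_mul_const _ (by fun_prop)]
    apply setLIntegral_mono' measurableSet_Ioo
    intro t ht
    have hsub : Icc t c ⊆ Ioo a (a + 1) := fun x hx =>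
      ⟨by linarith only [hcdef, hx, ht, hx.1, ht.1], by linarith only [hcdef, hx, hx.2]⟩
    rw [sqd_comm]
    refine (seg_bound ht.2.le (fun x hx => hd x (hsub hx)) (hc.mono hsub)).trans ?_
    gcongr
    exact lintegral_mono_set (Ioo_subset_Ioo_left ht.1.le)
  rw [lintegral_const_mul' _ _ ENNReal.ofReal_ne_top, hsplit, hsplit, ← hLf, ← hRt]
  calc 2 * ((∫⁻ t in Ioo (c - 1 / 2) c, sqd (g t) (g c))
        + ∫⁻ t in Ioo c (c + 1 / 2), sqd (g t) (g c))
      ≤ 2 * (ENNReal.ofReal (1 / 8) * Lf + ENNReal.ofReal (1 / 8) * Rt) := by gcongr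
    _ = ENNReal.ofReal (1 / 4) * (Lf + Rt) := by
      rw [← mul_add, ← mul_assoc, ← ENNReal.ofReal_ofNat 2, ← ENNReal.ofReal_mul (by norm_num)]
      norm_num

end Pool.Agent.Work.MP_382727_an
end

-- merged part: Pool.Agent.Work.MP_382727_an.Cube
section
/-!
A Poincare inequality with constant `8` on unit cubes, in every dimension.
-/

set_option autoImplicit false

namespace Pool.Agent.Work.MP_382727_an

open MeasureTheory Set Function
open scoped ENNReal

/-- The open box with corners `a` and `b`. -/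
def box {d : ℕ} (a b : Fin d → ℝ) : Set (EuclideanSpace ℝ (Fin d)) :=
  {x | ∀ i, x i ∈ Ioo (a i) (b i)}

theorem isOpen_box {d : ℕ} (a b : Fin d → ℝ) : IsOpen (box a b) := by
  have : box a b = ⋂ i, (fun x : EuclideanSpace ℝ (Fin d) => x i) ⁻¹' Ioo (a i) (b i) := by
    ext x; simp [box]
  rw [this]
  exact isOpen_iInter_of_finite fun i => isOpen_Ioo.preimage (by fun_prop)

theorem norm_gradient_sq {d : ℕ} (u : EuclideanSpace ℝ (Fin d) → ℝ)
    (x : EuclideanSpace ℝ (Fin d)) :
    ‖gradient u x‖ ^ 2 = ∑ i, (fderiv ℝ u x (EuclideanSpace.single i 1)) ^ 2 := by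
  rw [EuclideanSpace.real_norm_sq_eq]
  refine Finset.sum_congr rfl fun i _ => ?_
  congr 1
  have h1 := EuclideanSpace.inner_single_right (𝕜 := ℝ) i (1 : ℝ) (gradient u x)
  rw [gradient, InnerProductSpace.toDual_symm_apply] at h1
  rw [h1, gradient]
  simp

theorem measurePreserving_box {d : ℕ} (a b : Fin d → ℝ) :
    MeasurePreserving (MeasurableEquiv.toLp 2 (Fin d → ℝ))
      (Measure.pi fun i => volume.restrict (Ioo (a i) (b i))) (volume.restrict (box a b)) := by
  have h1 := (PiLp.volume_preserving_toLp (Fin d)).restrict_preimage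
    (isOpen_box a b).measurableSet
  have h2 : (@WithLp.toLp 2 (Fin d → ℝ)) ⁻¹' box a b = univ.pi fun i => Ioo (a i) (b i) := by
    ext y; simp [box]
  rw [h2, volume_pi, Measure.restrict_pi_pi] at h1
  exact h1

theorem hasDerivAt_line {d : ℕ} (y : Fin d → ℝ) (i : Fin d) (s : ℝ) :
    HasDerivAt (fun t => (WithLp.toLp 2 (update y i t) : EuclideanSpace ℝ (Fin d)))
      (EuclideanSpace.single i 1) s :=
  ((PiLp.continuousLinearEquiv 2 ℝ (fun _ : Fin d => ℝ)).symm.toContinuousLinearMap.hasFDerivAt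
    (x := update y i s)).comp_hasDerivAt s (hasDerivAt_update y i s)

theorem osc_cube_le {d : ℕ} (a : Fin d → ℝ) {u : EuclideanSpace ℝ (Fin d) → ℝ}
    (hu : ContDiffOn ℝ 1 u (box a fun i => a i + 1)) :
    osc (volume.restrict (box a fun i => a i + 1)) u
      ≤ ENNReal.ofReal (1 / 4) *
        ∫⁻ x in box a fun i => a i + 1, ENNReal.ofReal (‖gradient u x‖ ^ 2) := by
  classical
  set Q := box a fun i => a i + 1 with hQ
  have hQo : IsOpen Q := isOpen_box _ _
  set u' : EuclideanSpace ℝ (Fin d) → ℝ := Q.piecewise u (fun _ => 0) with hu'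
  have hm : Measurable u' :=
    hu.continuousOn.measurable_piecewise continuousOn_const hQo.measurableSet
  have hae : ∀ᵐ x ∂(volume.restrict Q), u x = u' x := by
    filter_upwards [ae_restrict_mem hQo.measurableSet] with x hx
    rw [hu', piecewise_eq_of_mem _ _ _ hx]
  have e0 : osc (volume.restrict Q) u = osc (volume.restrict Q) u' := by
    unfold osc
    apply lintegral_congr_ae
    filter_upwards [hae] with p hp
    apply lintegral_congr_ae
    filter_upwards [hae] with q hq
    rw [hp, hq]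
  have hmp := measurePreserving_box a fun i => a i + 1
  have := fun i => prob_Ioo (a i)
  rw [e0, osc_comp _ hmp]
  set G : Fin d → EuclideanSpace ℝ (Fin d) → ℝ≥0∞ := fun i x =>
    ENNReal.ofReal (1 / 4) * ENNReal.ofReal ((fderiv ℝ u x (EuclideanSpace.single i 1)) ^ 2)
    with hG
  have hGm : ∀ i, Measurable (G i) := fun i =>
    measurable_const.mul ((measurable_fderiv_apply_const ℝ u _).pow_const 2).ennreal_ofReal
  refine (tensor d (fun i => volume.restrict (Ioo (a i) (a i + 1))) (fun i => Ioo (a i) (a i + 1))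
    (fun i => ae_restrict_mem measurableSet_Ioo) _
    (hm.comp (MeasurableEquiv.toLp 2 (Fin d → ℝ)).measurable)
    (fun i y => G i (WithLp.toLp 2 y))
    (fun i => (hGm i).comp (MeasurableEquiv.toLp 2 (Fin d → ℝ)).measurable) ?_).trans ?_
  · intro i y hy
    have hmem : ∀ t ∈ Ioo (a i) (a i + 1),
        (WithLp.toLp 2 (update y i t) : EuclideanSpace ℝ (Fin d)) ∈ Q := by
      intro t ht j
      by_cases hj : j = i
      · subst hj; simpa using ht
      · simpa [update_of_ne hj] using hy j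
    have hLc : Continuous fun t =>
        (WithLp.toLp 2 (update y i t) : EuclideanSpace ℝ (Fin d)) :=
      continuous_iff_continuousAt.mpr fun t => (hasDerivAt_line y i t).continuousAt
    apply oneD (a i) (g' := fun t =>
      fderiv ℝ u (WithLp.toLp 2 (update y i t)) (EuclideanSpace.single i 1))
    · intro t ht
      have h1 : DifferentiableAt ℝ u (WithLp.toLp 2 (update y i t)) :=
        (hu.contDiffAt (hQo.mem_nhds (hmem t ht))).differentiableAt one_ne_zero
      have h2 := h1.hasFDerivAt.comp_hasDerivAt t (hasDerivAt_line y i t)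
      apply h2.congr_of_eventuallyEq
      filter_upwards [isOpen_Ioo.mem_nhds ht] with s hs
      exact piecewise_eq_of_mem Q u (fun _ => 0) (hmem s hs)
    · have h1 := hu.continuousOn_fderiv_of_isOpen hQo le_rfl
      exact (h1.comp hLc.continuousOn hmem).clm_apply continuousOn_const
  · apply le_of_eq
    have h1 : ∀ i, ∫⁻ y, G i (WithLp.toLp 2 y)
        ∂(Measure.pi fun i => volume.restrict (Ioo (a i) (a i + 1))) = ∫⁻ x in Q, G i x :=
      fun i => hmp.lintegral_comp_emb (MeasurableEquiv.toLp 2 (Fin d → ℝ)).measurableEmbedding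
        (G i)
    simp only [h1]
    rw [← lintegral_finsetSum _ (fun i _ => hGm i),
      ← lintegral_const_mul' _ _ ENNReal.ofReal_ne_top]
    refine lintegral_congr fun x => ?_
    rw [norm_gradient_sq, ENNReal.ofReal_sum_of_nonneg (fun i _ => sq_nonneg _), Finset.mul_sum]

theorem prob_cube {d : ℕ} (a : Fin d → ℝ) :
    IsProbabilityMeasure (volume.restrict (box a fun i => a i + 1)) := by
  have := fun i => prob_Ioo (a i)
  rw [← (measurePreserving_box a fun i => a i + 1).map_eq]
  exact Measure.isProbabilityMeasure_map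
    (MeasurableEquiv.toLp 2 (Fin d → ℝ)).measurable.aemeasurable

theorem poincare_cube {d : ℕ} (a : Fin d → ℝ) {u : EuclideanSpace ℝ (Fin d) → ℝ}
    (hu : ContDiffOn ℝ 1 u (box a fun i => a i + 1))
    (h2 : IntegrableOn (fun x => u x ^ 2) (box a fun i => a i + 1))
    (hg : IntegrableOn (fun x => ‖gradient u x‖ ^ 2) (box a fun i => a i + 1))
    (h0 : ∫ x in box a fun i => a i + 1, u x = 0) :
    8 * ∫ x in box a fun i => a i + 1, u x ^ 2
      ≤ ∫ x in box a fun i => a i + 1, ‖gradient u x‖ ^ 2 := by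
  have := prob_cube a
  have hL : MemLp u 2 (volume.restrict (box a fun i => a i + 1)) :=
    (memLp_two_iff_integrable_sq
      (hu.continuousOn.aestronglyMeasurable (isOpen_box _ _).measurableSet)).mpr h2
  have h1 := osc_cube_le a hu
  rw [osc_eq _ _ hL, h0, ← ofReal_integral_eq_lintegral_ofReal hg
    (ae_of_all _ fun x => sq_nonneg _), ← ENNReal.ofReal_mul (by norm_num),
    ENNReal.ofReal_le_ofReal_iff
      (mul_nonneg (by norm_num) (integral_nonneg fun x => sq_nonneg _))] at h1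
  linarith only [h1]

end Pool.Agent.Work.MP_382727_an
end

-- merged part: Pool.Agent.Work.MP_382727_an.Upper
section
/-!
Test functions: products of cosines in two orthogonal directions.
-/

set_option autoImplicit false

namespace Pool.Agent.Work.MP_382727_an

open MeasureTheory Set Function Real

/-- The cosine mode of order `n` on the interval `(a, a + w)`. -/
noncomputable def cs (n a w t : ℝ) : ℝ := cos (n * π / w * (t - a))

/-- The sine mode of order `n` on the interval `(a, a + w)`. -/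
noncomputable def sn (n a w t : ℝ) : ℝ := sin (n * π / w * (t - a))

theorem continuous_cs (n a w : ℝ) : Continuous (cs n a w) := by unfold cs; fun_prop
theorem continuous_sn (n a w : ℝ) : Continuous (sn n a w) := by unfold sn; fun_prop

theorem hasDerivAt_cs (n a w t : ℝ) :
    HasDerivAt (cs n a w) (-(n * π / w) * sn n a w t) t := by
  have h1 : HasDerivAt (fun t => n * π / w * (t - a)) (n * π / w) t := by
    simpa using ((hasDerivAt_id t).sub_const a).const_mul (n * π / w)
  have h2 := h1.cos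
  unfold sn
  convert h2 using 1
  · rfl
  · ring

theorem hasDerivAt_sn (n a w t : ℝ) :
    HasDerivAt (sn n a w) ((n * π / w) * cs n a w t) t := by
  have h1 : HasDerivAt (fun t => n * π / w * (t - a)) (n * π / w) t := by
    simpa using ((hasDerivAt_id t).sub_const a).const_mul (n * π / w)
  have h2 := h1.sin
  unfold cs
  convert h2 using 1
  · rfl
  · ring

theorem integral_cs_ne {n : ℤ} (hn : n ≠ 0) (a : ℝ) {w : ℝ} (hw : 0 < w) :
    ∫ t in a..a + w, cs n a w t = 0 := by
  have h1 := intervalIntegral.integral_eq_sub_of_hasDerivAt (a := a) (b := a + w)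
    (fun t _ => hasDerivAt_sn n a w t)
    ((continuous_const.mul (continuous_cs n a w)).intervalIntegrable _ _)
  rw [intervalIntegral.integral_const_mul] at h1
  have h2 : sn n a w (a + w) = 0 := by
    unfold sn
    rw [show (n : ℝ) * π / w * (a + w - a) = n * π by field_simp; ring]
    exact sin_int_mul_pi n
  have h3 : sn n a w a = 0 := by unfold sn; simp
  rw [h2, h3, sub_zero] at h1
  have h4 : (n : ℝ) * π / w ≠ 0 := by
    have : (n : ℝ) ≠ 0 := by exact_mod_cast hn
    have := pi_pos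
    positivity
  exact (mul_eq_zero.mp h1).resolve_left h4

theorem integral_cs_zero (a w : ℝ) : ∫ t in a..a + w, cs 0 a w t = w := by
  unfold cs; simp

theorem integral_cs_nonneg (n : ℤ) (a : ℝ) {w : ℝ} (hw : 0 < w) :
    0 ≤ ∫ t in a..a + w, cs n a w t := by
  by_cases hn : n = 0
  · rw [hn, Int.cast_zero, integral_cs_zero]; exact hw.le
  · rw [integral_cs_ne hn a hw]

theorem integral_cc (m m' a w : ℝ) : ∫ t in a..a + w, cs m a w t * cs m' a w t
    = ((∫ t in a..a + w, cs (m - m') a w t) + ∫ t in a..a + w, cs (m + m') a w t) / 2 := by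
  rw [← intervalIntegral.integral_add ((continuous_cs _ _ _).intervalIntegrable _ _)
    ((continuous_cs _ _ _).intervalIntegrable _ _), ← intervalIntegral.integral_div]
  congr 1
  funext t
  unfold cs
  rw [show (m - m') * π / w * (t - a) = m * π / w * (t - a) - m' * π / w * (t - a) by ring,
    show (m + m') * π / w * (t - a) = m * π / w * (t - a) + m' * π / w * (t - a) by ring,
    cos_sub, cos_add]
  ring

theorem integral_ss (m m' a w : ℝ) : ∫ t in a..a + w, sn m a w t * sn m' a w t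
    = ((∫ t in a..a + w, cs (m - m') a w t) - ∫ t in a..a + w, cs (m + m') a w t) / 2 := by
  rw [← intervalIntegral.integral_sub ((continuous_cs _ _ _).intervalIntegrable _ _)
    ((continuous_cs _ _ _).intervalIntegrable _ _), ← intervalIntegral.integral_div]
  congr 1
  funext t
  unfold cs sn
  rw [show (m - m') * π / w * (t - a) = m * π / w * (t - a) - m' * π / w * (t - a) by ring,
    show (m + m') * π / w * (t - a) = m * π / w * (t - a) + m' * π / w * (t - a) by ring,
    cos_sub, cos_add]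
  ring

theorem orth_ne {m m' : ℕ} (h : m ≠ m') (a : ℝ) {w : ℝ} (hw : 0 < w) :
    ∫ t in a..a + w, cs m a w t * cs m' a w t = 0 ∧
      ∫ t in a..a + w, sn m a w t * sn m' a w t = 0 := by
  have h1 := integral_cs_ne (n := (m : ℤ) - m') (by omega) a hw
  have h2 := integral_cs_ne (n := (m : ℤ) + m') (by omega) a hw
  push_cast at h1 h2
  rw [integral_cc, integral_ss, h1, h2]
  norm_num

theorem orth_eq (m : ℕ) (a : ℝ) {w : ℝ} (hw : 0 < w) :
    0 < ∫ t in a..a + w, cs m a w t * cs m a w t ∧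
      ∫ t in a..a + w, sn m a w t * sn m a w t ≤ ∫ t in a..a + w, cs m a w t * cs m a w t := by
  have h2 := integral_cs_nonneg ((m : ℤ) + m) a hw
  push_cast at h2
  rw [integral_cc, integral_ss, sub_self, integral_cs_zero]
  constructor <;> linarith only [hw, h2]

theorem integrableOn_of_bounded {d : ℕ} {Ω : Set (EuclideanSpace ℝ (Fin d))}
    (hb : Bornology.IsBounded Ω) {F : EuclideanSpace ℝ (Fin d) → ℝ} (hF : Continuous F) :
    IntegrableOn F Ω :=
  (hF.continuousOn.integrableOn_compact hb.isCompact_closure).mono_set subset_closure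

theorem integral_sq_sum {d : ℕ} {Ω : Set (EuclideanSpace ℝ (Fin d))}
    (hb : Bornology.IsBounded Ω) {N : ℕ} (F : Fin N → EuclideanSpace ℝ (Fin d) → ℝ)
    (hF : ∀ j, Continuous (F j)) (ho : ∀ i j, i ≠ j → ∫ x in Ω, F i x * F j x = 0)
    (c : Fin N → ℝ) :
    ∫ x in Ω, (∑ j, c j * F j x) ^ 2 = ∑ j, c j ^ 2 * ∫ x in Ω, F j x * F j x := by
  have e : (fun x => (∑ j, c j * F j x) ^ 2)
      = fun x => ∑ i, ∑ j, c i * c j * (F i x * F j x) := by
    funext x
    rw [sq, Finset.sum_mul_sum]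
    refine Finset.sum_congr rfl fun i _ => Finset.sum_congr rfl fun j _ => by ring
  have hi : ∀ i j, IntegrableOn (fun x => c i * c j * (F i x * F j x)) Ω := fun i j =>
    integrableOn_of_bounded hb (continuous_const.mul ((hF i).mul (hF j)))
  rw [e, integral_finsetSum _ (fun i _ => integrable_finsetSum _ fun j _ => hi i j)]
  refine Finset.sum_congr rfl fun i _ => ?_
  rw [integral_finsetSum _ (fun j _ => hi i j), Finset.sum_eq_single i]
  · rw [integral_const_mul]; ring
  · intro j _ hj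
    rw [integral_const_mul, ho i j hj.symm, mul_zero]
  · simp

theorem exists_space {d : ℕ} {Ω : Set (EuclideanSpace ℝ (Fin d))} (hb : Bornology.IsBounded Ω)
    (σ : EuclideanSpace ℝ (Fin d) →L[ℝ] ℝ) (i₀ : Fin d)
    (hσ : σ (EuclideanSpace.single i₀ 1) = 0) {κ a w L C : ℝ}
    (hκ : ∑ i, σ (EuclideanSpace.single i 1) ^ 2 = κ) (hw : 0 < w) (hL : 0 < L) (hC : 0 < C)
    (hprod : ∀ F G : ℝ → ℝ, ∫ x in Ω, F (σ x) * G (x i₀)
      = C * (∫ s in a..a + w, F s) * ∫ t in (0 : ℝ)..0 + L, G t)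
    (k : ℕ) {lam : ℝ} (hlam : κ * (π / w) ^ 2 + (k / 2 * π / L) ^ 2 ≤ lam) :
    ∃ V : Submodule ℝ (EuclideanSpace ℝ (Fin d) → ℝ),
      Module.finrank ℝ V = k + 1 ∧ (∀ u ∈ V, FiniteEnergy Ω u) ∧
      ∀ u ∈ V, u ≠ 0 → 0 < ∫ x in Ω, u x ^ 2 ∧
        ∫ x in Ω, ‖gradient u x‖ ^ 2 ≤ lam * ∫ x in Ω, u x ^ 2 := by
  have hκ0 : 0 ≤ κ := hκ ▸ Finset.sum_nonneg fun i _ => sq_nonneg _
  set m : Fin (k + 1) → ℕ := fun j => j % 2 with hm
  set p : Fin (k + 1) → ℕ := fun j => j / 2 with hp
  set U : Fin (k + 1) → EuclideanSpace ℝ (Fin d) → ℝ :=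
    fun j x => cs (m j) a w (σ x) * cs (p j) 0 L (x i₀) with hU
  set A : Fin (k + 1) → EuclideanSpace ℝ (Fin d) → ℝ :=
    fun j x => (-(m j * π / w) * sn (m j) a w (σ x)) * cs (p j) 0 L (x i₀) with hA
  set B : Fin (k + 1) → EuclideanSpace ℝ (Fin d) → ℝ :=
    fun j x => cs (m j) a w (σ x) * (-(p j * π / L) * sn (p j) 0 L (x i₀)) with hB
  have hcx : Continuous fun x : EuclideanSpace ℝ (Fin d) => x i₀ := by fun_prop
  have cU : ∀ j, Continuous (U j) := fun j =>
    ((continuous_cs _ _ _).comp σ.continuous).mul ((continuous_cs _ _ _).comp hcx)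
  have cA : ∀ j, Continuous (A j) := fun j =>
    (continuous_const.mul ((continuous_sn _ _ _).comp σ.continuous)).mul
      ((continuous_cs _ _ _).comp hcx)
  have cB : ∀ j, Continuous (B j) := fun j =>
    ((continuous_cs _ _ _).comp σ.continuous).mul
      (continuous_const.mul ((continuous_sn _ _ _).comp hcx))
  have iU : ∀ i j, ∫ x in Ω, U i x * U j x
      = C * (∫ s in a..a + w, cs (m i) a w s * cs (m j) a w s)
        * ∫ t in (0 : ℝ)..0 + L, cs (p i) 0 L t * cs (p j) 0 L t := by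
    intro i j
    rw [← hprod]
    congr 1; funext x; simp only [hU]; ring
  have iA : ∀ i j, ∫ x in Ω, A i x * A j x
      = (m i * π / w) * (m j * π / w) * (C * (∫ s in a..a + w, sn (m i) a w s * sn (m j) a w s)
        * ∫ t in (0 : ℝ)..0 + L, cs (p i) 0 L t * cs (p j) 0 L t) := by
    intro i j
    rw [← hprod, ← integral_const_mul]
    congr 1; funext x; simp only [hA]; ring
  have iB : ∀ i j, ∫ x in Ω, B i x * B j x
      = (p i * π / L) * (p j * π / L) * (C * (∫ s in a..a + w, cs (m i) a w s * cs (m j) a w s)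
        * ∫ t in (0 : ℝ)..0 + L, sn (p i) 0 L t * sn (p j) 0 L t) := by
    intro i j
    rw [← hprod, ← integral_const_mul]
    congr 1; funext x; simp only [hB]; ring
  have hne : ∀ i j : Fin (k + 1), i ≠ j → m i ≠ m j ∨ p i ≠ p j := by
    intro i j hij
    by_contra h
    push Not at h
    apply hij
    apply Fin.ext
    simp only [hm, hp] at h
    omega
  have oU : ∀ i j, i ≠ j → ∫ x in Ω, U i x * U j x = 0 := by
    intro i j hij
    rw [iU]
    rcases hne i j hij with h | h
    · rw [(orth_ne h a hw).1]; ring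
    · rw [(orth_ne h 0 hL).1]; ring
  have oA : ∀ i j, i ≠ j → ∫ x in Ω, A i x * A j x = 0 := by
    intro i j hij
    rw [iA]
    rcases hne i j hij with h | h
    · rw [(orth_ne h a hw).2]; ring
    · rw [(orth_ne h 0 hL).1]; ring
  have oB : ∀ i j, i ≠ j → ∫ x in Ω, B i x * B j x = 0 := by
    intro i j hij
    rw [iB]
    rcases hne i j hij with h | h
    · rw [(orth_ne h a hw).1]; ring
    · rw [(orth_ne h 0 hL).2]; ring
  have posU : ∀ j, 0 < ∫ x in Ω, U j x * U j x := by
    intro j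
    rw [iU]
    exact mul_pos (mul_pos hC (orth_eq _ a hw).1) (orth_eq _ 0 hL).1
  have diag : ∀ j, κ * (∫ x in Ω, A j x * A j x) + ∫ x in Ω, B j x * B j x
      ≤ lam * ∫ x in Ω, U j x * U j x := by
    intro j
    rw [iA, iB, iU]
    obtain ⟨h1, h2⟩ := orth_eq (m j) a hw
    obtain ⟨h3, h4⟩ := orth_eq (p j) 0 hL
    generalize (∫ s in a..a + w, cs (m j) a w s * cs (m j) a w s) = c1 at *
    generalize (∫ s in a..a + w, sn (m j) a w s * sn (m j) a w s) = s1 at *
    generalize (∫ t in (0 : ℝ)..0 + L, cs (p j) 0 L t * cs (p j) 0 L t) = c2 at *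
    generalize (∫ t in (0 : ℝ)..0 + L, sn (p j) 0 L t * sn (p j) 0 L t) = s2 at *
    have hm1 : (m j : ℝ) ≤ 1 := by
      have : m j ≤ 1 := by simp only [hm]; omega
      exact_mod_cast this
    have hp1 : (p j : ℝ) ≤ k / 2 := by
      have h5 : 2 * p j ≤ k := by simp only [hp]; omega
      have h6 : (2 : ℝ) * p j ≤ k := by exact_mod_cast h5
      linarith only [h6]
    have hπ := pi_pos
    have e1 : (m j * π / w) * (m j * π / w) ≤ (π / w) ^ 2 := by
      rw [← sq]
      gcongr
      linarith only [hm1, hπ, mul_nonneg_of_nonpos_of_nonpos (Mathlib.Tactic.Linarith.sub_nonpos_of_le hm1) (le_of_lt (Mathlib.Tactic.Linarith.sub_neg_of_lt hπ))]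
    have e2 : (p j * π / L) * (p j * π / L) ≤ (k / 2 * π / L) ^ 2 := by
      rw [← sq]
      gcongr
    have n1 : 0 ≤ (m j * π / w) * (m j * π / w) := mul_self_nonneg _
    have n2 : 0 ≤ (p j * π / L) * (p j * π / L) := mul_self_nonneg _
    have t1 : C * s1 * c2 ≤ C * c1 * c2 := by gcongr
    have t2 : C * c1 * s2 ≤ C * c1 * c2 := by gcongr
    have t0 : 0 < C * c1 * c2 := by positivity
    calc κ * ((m j * π / w) * (m j * π / w) * (C * s1 * c2))
          + (p j * π / L) * (p j * π / L) * (C * c1 * s2)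
        ≤ κ * ((m j * π / w) * (m j * π / w) * (C * c1 * c2))
          + (p j * π / L) * (p j * π / L) * (C * c1 * c2) := by gcongr
      _ ≤ κ * ((π / w) ^ 2 * (C * c1 * c2)) + (k / 2 * π / L) ^ 2 * (C * c1 * c2) := by gcongr
      _ = (κ * (π / w) ^ 2 + (k / 2 * π / L) ^ 2) * (C * c1 * c2) := by ring
      _ ≤ lam * (C * c1 * c2) := by gcongr
  have dU : ∀ j x, HasFDerivAt (U j)
      (A j x • σ + B j x • (EuclideanSpace.proj i₀ : EuclideanSpace ℝ (Fin d) →L[ℝ] ℝ)) x := by
    intro j x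
    have h1 := (hasDerivAt_cs (m j) a w (σ x)).comp_hasFDerivAt x σ.hasFDerivAt
    have h2 := (hasDerivAt_cs (p j) 0 L (x i₀)).comp_hasFDerivAt x
      (EuclideanSpace.proj i₀ : EuclideanSpace ℝ (Fin d) →L[ℝ] ℝ).hasFDerivAt
    have h3 := h1.mul h2
    refine h3.congr_fderiv ?_
    ext v
    simp [hA, hB]
    ring
  let Ψ : (Fin (k + 1) → ℝ) →ₗ[ℝ] (EuclideanSpace ℝ (Fin d) → ℝ) := Fintype.linearCombination ℝ U
  have hΨ : ∀ c, Ψ c = fun x => ∑ j, c j * U j x := by
    intro c; funext x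
    simp [Ψ, Fintype.linearCombination_apply]
  have dΨ : ∀ c x, HasFDerivAt (Ψ c) ((∑ j, c j * A j x) • σ + (∑ j, c j * B j x) •
      (EuclideanSpace.proj i₀ : EuclideanSpace ℝ (Fin d) →L[ℝ] ℝ)) x := by
    intro c x
    rw [hΨ]
    have h1 := HasFDerivAt.fun_sum (u := Finset.univ) fun j _ => (dU j x).const_mul (c j)
    refine h1.congr_fderiv ?_
    ext v
    simp [Finset.sum_mul, Finset.sum_add_distrib, mul_assoc]
  have gΨ : ∀ c x, ‖gradient (Ψ c) x‖ ^ 2
      = κ * (∑ j, c j * A j x) ^ 2 + (∑ j, c j * B j x) ^ 2 := by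
    intro c x
    rw [norm_gradient_sq, (dΨ c x).fderiv]
    generalize (∑ j, c j * A j x) = α
    generalize (∑ j, c j * B j x) = β
    have h1 : ∀ i, ((α • σ + β • (EuclideanSpace.proj i₀ : EuclideanSpace ℝ (Fin d) →L[ℝ] ℝ))
        (EuclideanSpace.single i 1)) ^ 2
        = α ^ 2 * σ (EuclideanSpace.single i 1) ^ 2 + if i = i₀ then β ^ 2 else 0 := by
      intro i
      by_cases hi : i = i₀
      · subst hi; simp [hσ]
      · simp [hi, Ne.symm hi]; ring
    simp only [h1]
    rw [Finset.sum_add_distrib, ← Finset.mul_sum, hκ]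
    simp [mul_comm]
  have sU : ∀ c, ∫ x in Ω, (Ψ c x) ^ 2 = ∑ j, c j ^ 2 * ∫ x in Ω, U j x * U j x := by
    intro c
    rw [hΨ]
    exact integral_sq_sum hb U cU oU c
  have cS : ∀ (F : Fin (k + 1) → EuclideanSpace ℝ (Fin d) → ℝ), (∀ j, Continuous (F j)) →
      ∀ c : Fin (k + 1) → ℝ, Continuous fun x => (∑ j, c j * F j x) ^ 2 := fun F hF c =>
    (continuous_finsetSum _ fun j _ => continuous_const.mul (hF j)).pow 2
  have posΨ : ∀ c, c ≠ 0 → 0 < ∫ x in Ω, (Ψ c x) ^ 2 := by
    intro c hc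
    rw [sU]
    obtain ⟨j, hj⟩ := Function.ne_iff.mp hc
    apply Finset.sum_pos' (fun j _ => mul_nonneg (sq_nonneg _) (posU j).le)
    exact ⟨j, Finset.mem_univ _, mul_pos (sq_pos_of_ne_zero hj) (posU j)⟩
  have hinj : Injective Ψ := by
    rw [← LinearMap.ker_eq_bot, LinearMap.ker_eq_bot']
    intro c hc
    by_contra hne
    have := posΨ c hne
    rw [hc] at this
    simp at this
  refine ⟨LinearMap.range Ψ, by rw [LinearMap.finrank_range_of_inj hinj]; simp, ?_, ?_⟩
  · rintro _ ⟨c, rfl⟩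
    refine ⟨?_, ?_, ?_⟩
    · apply ContDiff.contDiffOn
      rw [hΨ]
      refine ContDiff.sum fun j _ => contDiff_const.mul ?_
      have h1 : ∀ n a w : ℝ, ContDiff ℝ 1 (cs n a w) := fun n a w => by unfold cs; fun_prop
      exact ((h1 _ _ _).comp σ.contDiff).mul ((h1 _ _ _).comp
        (EuclideanSpace.proj i₀ : EuclideanSpace ℝ (Fin d) →L[ℝ] ℝ).contDiff)
    · rw [hΨ]; exact integrableOn_of_bounded hb (cS U cU c)
    · simp only [gΨ]
      exact integrableOn_of_bounded hb ((continuous_const.mul (cS A cA c)).add (cS B cB c))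
  · rintro _ ⟨c, rfl⟩ hne0
    refine ⟨posΨ c (fun h => hne0 (by rw [h, map_zero])), ?_⟩
    simp only [gΨ]
    have i1 : IntegrableOn (fun x => κ * (∑ j, c j * A j x) ^ 2) Ω :=
      integrableOn_of_bounded hb (continuous_const.mul (cS A cA c))
    rw [integral_add i1 (integrableOn_of_bounded hb (cS B cB c)), integral_const_mul,
      integral_sq_sum hb A cA oA c, integral_sq_sum hb B cB oB c, sU, Finset.mul_sum,
      Finset.mul_sum, ← Finset.sum_add_distrib]
    refine Finset.sum_le_sum fun j _ => ?_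
    have := mul_le_mul_of_nonneg_left (diag j) (sq_nonneg (c j))
    linarith only [this]

end Pool.Agent.Work.MP_382727_an
end

-- merged part: Pool.Agent.Work.MP_382727_an.Lower
section
/-!
Lower bound for the `k`-th Neumann eigenvalue of a column of `k` unit cubes.
-/

set_option autoImplicit false

namespace Pool.Agent.Work.MP_382727_an

open MeasureTheory Set Function

/-- The column `(0,1)^(d-1) × (0,k)`, long in the direction `i₀`. -/
def column {d : ℕ} (i₀ : Fin d) (k : ℕ) : Set (EuclideanSpace ℝ (Fin d)) :=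
  box (fun _ => 0) (update (fun _ => 1) i₀ (k : ℝ))

/-- The `m`-th unit cube of the column. -/
def cell {d : ℕ} (i₀ : Fin d) (m : ℕ) : Set (EuclideanSpace ℝ (Fin d)) :=
  box (update (fun _ => 0) i₀ (m : ℝ)) fun i => update (fun _ => (0 : ℝ)) i₀ (m : ℝ) i + 1

theorem mem_column {d : ℕ} {i₀ : Fin d} {k : ℕ} {x : EuclideanSpace ℝ (Fin d)} :
    x ∈ column i₀ k ↔ (0 < x i₀ ∧ x i₀ < k) ∧ ∀ i, i ≠ i₀ → 0 < x i ∧ x i < 1 := by
  constructor
  · intro h
    refine ⟨by simpa using h i₀, fun i hi => by simpa [update_of_ne hi] using h i⟩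
  · rintro ⟨h1, h2⟩ i
    by_cases hi : i = i₀
    · subst hi; simpa using h1
    · simpa [update_of_ne hi] using h2 i hi

theorem mem_cell {d : ℕ} {i₀ : Fin d} {m : ℕ} {x : EuclideanSpace ℝ (Fin d)} :
    x ∈ cell i₀ m ↔ ((m : ℝ) < x i₀ ∧ x i₀ < m + 1) ∧ ∀ i, i ≠ i₀ → 0 < x i ∧ x i < 1 := by
  constructor
  · intro h
    refine ⟨by simpa using h i₀, fun i hi => by simpa [update_of_ne hi] using h i⟩
  · rintro ⟨h1, h2⟩ i
    by_cases hi : i = i₀
    · subst hi; simpa using h1
    · simpa [update_of_ne hi] using h2 i hi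

theorem cell_subset {d : ℕ} (i₀ : Fin d) {k : ℕ} (m : Fin k) : cell i₀ m ⊆ column i₀ k := by
  intro x hx
  rw [mem_cell] at hx
  rw [mem_column]
  have h1 : ((m : ℕ) : ℝ) + 1 ≤ k := by exact_mod_cast m.2
  have h2 : (0 : ℝ) ≤ (m : ℕ) := Nat.cast_nonneg _
  exact ⟨⟨by linarith only [hx, hx.1.1], by linarith only [hx, h1, hx.1.2]⟩, hx.2⟩

theorem integral_column {d : ℕ} (i₀ : Fin d) (k : ℕ) {F : EuclideanSpace ℝ (Fin d) → ℝ}
    (hF : IntegrableOn F (column i₀ k)) :
    ∫ x in column i₀ k, F x = ∑ m : Fin k, ∫ x in cell i₀ m, F x := by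
  have hae : ∀ᵐ x : EuclideanSpace ℝ (Fin d), ∀ m : ℕ, x i₀ ≠ m := by
    rw [ae_all_iff]
    intro m
    exact (PiLp.volume_preserving_ofLp (Fin d)).quasiMeasurePreserving.ae
      (Measure.ae_eval_ne (fun _ => volume) i₀ (m : ℝ))
  have h1 : column i₀ k =ᵐ[volume] ⋃ m : Fin k, cell i₀ m := by
    filter_upwards [hae] with x hx
    apply propext
    constructor
    · intro h
      have h' := mem_column.mp h
      have hk : ⌊x i₀⌋₊ < k := (Nat.floor_lt h'.1.1.le).mpr h'.1.2
      refine mem_iUnion.mpr ⟨⟨⌊x i₀⌋₊, hk⟩, mem_cell.mpr ⟨⟨?_, Nat.lt_floor_add_one _⟩, h'.2⟩⟩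
      exact lt_of_le_of_ne (Nat.floor_le h'.1.1.le) (hx _).symm
    · intro h
      obtain ⟨m, hm⟩ := mem_iUnion.mp h
      exact cell_subset i₀ m hm
  rw [setIntegral_congr_set h1, integral_iUnion_fintype]
  · exact fun m => (isOpen_box _ _).measurableSet
  · intro m m' hne
    refine Set.disjoint_left.mpr fun x h1 h2 => hne ?_
    rw [mem_cell] at h1 h2
    have h3 : ((m : ℕ) : ℝ) < (m' : ℕ) + 1 := by linarith [h1.1.1, h2.1.2]
    have h4 : ((m' : ℕ) : ℝ) < (m : ℕ) + 1 := by linarith [h1.1.2, h2.1.1]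
    have h5 : (m : ℕ) < (m' : ℕ) + 1 := by exact_mod_cast h3
    have h6 : (m' : ℕ) < (m : ℕ) + 1 := by exact_mod_cast h4
    exact Fin.ext (by omega)
  · exact fun m => hF.mono_set (cell_subset i₀ m)

theorem column_lower {d : ℕ} (i₀ : Fin d) (k : ℕ) (lam : ℝ)
    (V : Submodule ℝ (EuclideanSpace ℝ (Fin d) → ℝ)) (hV : Module.finrank ℝ V = k + 1)
    (hE : ∀ u ∈ V, FiniteEnergy (column i₀ k) u)
    (hR : ∀ u ∈ V, u ≠ 0 → 0 < ∫ x in column i₀ k, u x ^ 2 ∧
      ∫ x in column i₀ k, ‖gradient u x‖ ^ 2 ≤ lam * ∫ x in column i₀ k, u x ^ 2) :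
    8 ≤ lam := by
  have hint : ∀ u ∈ V, ∀ m : Fin k, IntegrableOn u (cell i₀ m) := by
    intro u hu m
    have := prob_cube (update (fun _ => (0 : ℝ)) i₀ ((m : ℕ) : ℝ))
    have hL : MemLp u 2 (volume.restrict (cell i₀ m)) :=
      (memLp_two_iff_integrable_sq (((hE u hu).1.continuousOn.mono
        (cell_subset i₀ m)).aestronglyMeasurable (isOpen_box _ _).measurableSet)).mpr
        ((hE u hu).2.1.mono_set (cell_subset i₀ m))
    have h2 : IsProbabilityMeasure (volume.restrict (cell i₀ m)) := this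
    exact hL.integrable (by norm_num)
  let Φ : V →ₗ[ℝ] (Fin k → ℝ) :=
    { toFun := fun u m => ∫ x in cell i₀ m, u.1 x
      map_add' := fun u v => funext fun m => integral_add (hint u.1 u.2 m) (hint v.1 v.2 m)
      map_smul' := fun c u => funext fun m => integral_const_mul c u.1 }
  have : Module.Finite ℝ V := Module.finite_of_finrank_eq_succ hV
  have hker : LinearMap.ker Φ ≠ ⊥ := LinearMap.ker_ne_bot_of_finrank_lt (by simp [hV])
  obtain ⟨u, hu, hne⟩ := Submodule.exists_mem_ne_zero_of_ne_bot hker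
  have hu0 : ∀ m : Fin k, ∫ x in cell i₀ m, u.1 x = 0 := fun m => congrFun hu m
  obtain ⟨hc, h2, hg⟩ := hE u.1 u.2
  obtain ⟨hpos, hle⟩ := hR u.1 u.2 (fun h => hne (Subtype.ext h))
  have key : 8 * ∫ x in column i₀ k, u.1 x ^ 2 ≤ ∫ x in column i₀ k, ‖gradient u.1 x‖ ^ 2 := by
    rw [integral_column i₀ k h2, integral_column i₀ k hg, Finset.mul_sum]
    refine Finset.sum_le_sum fun m _ => ?_
    exact poincare_cube _ (hc.mono (cell_subset i₀ m)) (h2.mono_set (cell_subset i₀ m))
      (hg.mono_set (cell_subset i₀ m)) (hu0 m)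
  exact le_of_mul_le_mul_right (key.trans hle) hpos

end Pool.Agent.Work.MP_382727_an
end

-- merged part: Pool.Agent.Work.MP_382727_an.Main
section
/-!
The pair of domains: a column of unit cubes and a thin slab along the diagonal of its cross
section.
-/

set_option autoImplicit false

namespace Pool.Agent.Work.MP_382727_an

open MeasureTheory Set Function Real

theorem prod_formula {d : ℕ} (T : EuclideanSpace ℝ (Fin d) ≃L[ℝ] (Fin d → ℝ))
    (lo hi : Fin d → ℝ) (hlt : ∀ i, lo i < hi i) {i₁ i₀ : Fin d} (hne : i₀ ≠ i₁) :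
    ∃ C : ℝ, 0 < C ∧ ∀ F G : ℝ → ℝ,
      ∫ x in T ⁻¹' (univ.pi fun i => Ioo (lo i) (hi i)), F (T x i₁) * G (T x i₀)
        = C * (∫ s in lo i₁..hi i₁, F s) * ∫ t in lo i₀..hi i₀, G t := by
  classical
  have hH : (Measure.map T volume).IsAddHaarMeasure := T.isAddHaarMeasure_map _
  have hc := Measure.isAddLeftInvariant_eq_smul (Measure.map T volume) volume
  have hpos := Measure.addHaarScalarFactor_pos_of_isAddHaarMeasure (Measure.map T volume) volume
  set c := Measure.addHaarScalarFactor (Measure.map T volume) volume with hcdef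
  have hemb : MeasurableEmbedding T := T.toHomeomorph.measurableEmbedding
  refine ⟨c * ∏ i ∈ (Finset.univ.erase i₁).erase i₀, (hi i - lo i),
    mul_pos (by exact_mod_cast hpos) (Finset.prod_pos fun i _ => sub_pos.mpr (hlt i)), ?_⟩
  intro F G
  set f : Fin d → ℝ → ℝ := fun i => if i = i₁ then F else if i = i₀ then G else fun _ => 1
    with hf
  have hm0 : i₀ ∈ Finset.univ.erase i₁ := Finset.mem_erase.mpr ⟨hne, Finset.mem_univ _⟩
  have hsplit : ∀ g : Fin d → ℝ, ∏ i, g i
      = g i₁ * (g i₀ * ∏ i ∈ (Finset.univ.erase i₁).erase i₀, g i) := by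
    intro g
    rw [Finset.mul_prod_erase _ _ hm0, Finset.mul_prod_erase _ _ (Finset.mem_univ i₁)]
  have hrest : ∀ i ∈ (Finset.univ.erase i₁).erase i₀, f i = fun _ => 1 := by
    intro i hi
    have h1 := (Finset.mem_erase.mp hi).1
    have h2 := (Finset.mem_erase.mp (Finset.mem_erase.mp hi).2).1
    simp [hf, h1, h2]
  have f1 : f i₁ = F := by simp [hf]
  have f0 : f i₀ = G := by simp [hf, hne]
  have hH2 : ∀ y : Fin d → ℝ, F (y i₁) * G (y i₀) = ∏ i, f i (y i) := by
    intro y
    rw [hsplit, f1, f0, Finset.prod_eq_one, mul_one]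
    intro i hi
    rw [hrest i hi]
  rw [← hemb.setIntegral_map (fun y => F (y i₁) * G (y i₀)), hc, Measure.restrict_smul,
    integral_smul_nnreal_measure, volume_pi, Measure.restrict_pi_pi]
  simp only [hH2]
  rw [integral_fintype_prod_eq_prod, hsplit, f1, f0,
    intervalIntegral.integral_of_le (hlt i₁).le, intervalIntegral.integral_of_le (hlt i₀).le,
    integral_Ioc_eq_integral_Ioo, integral_Ioc_eq_integral_Ioo]
  have h3 : ∏ i ∈ (Finset.univ.erase i₁).erase i₀, ∫ x in Ioo (lo i) (hi i), f i x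
      = ∏ i ∈ (Finset.univ.erase i₁).erase i₀, (hi i - lo i) := by
    refine Finset.prod_congr rfl fun i hi' => ?_
    rw [hrest i hi']
    simp [(hlt i).le]
  rw [h3, NNReal.smul_def, smul_eq_mul]
  ring

/-- The linear change of coordinates `(x₁, x₂) ↦ (x₁ + x₂, x₁ - x₂)`. -/
noncomputable def mix {d : ℕ} {i₁ i₂ : Fin d} (h : i₂ ≠ i₁) :
    EuclideanSpace ℝ (Fin d) ≃ₗ[ℝ] (Fin d → ℝ) where
  toFun x i := if i = i₁ then x i₁ + x i₂ else if i = i₂ then x i₁ - x i₂ else x i
  map_add' x y := by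
    funext i
    simp only [PiLp.add_apply, Pi.add_apply]
    split_ifs <;> ring
  map_smul' c x := by
    funext i
    simp only [PiLp.smul_apply, Pi.smul_apply, smul_eq_mul, RingHom.id_apply]
    split_ifs <;> ring
  invFun y := WithLp.toLp 2 fun i =>
    if i = i₁ then (y i₁ + y i₂) / 2 else if i = i₂ then (y i₁ - y i₂) / 2 else y i
  left_inv x := by
    ext i
    by_cases h1 : i = i₁
    · subst h1; simp [h]
    · by_cases h2 : i = i₂
      · subst h2; simp [h]
      · simp [h1, h2]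
  right_inv y := by
    funext i
    by_cases h1 : i = i₁
    · subst h1; simp [h]; ring
    · by_cases h2 : i = i₂
      · subst h2; simp [h]; ring
      · simp [h1, h2]

theorem mix_apply {d : ℕ} {i₁ i₂ : Fin d} (h : i₂ ≠ i₁) (x : EuclideanSpace ℝ (Fin d))
    (i : Fin d) :
    mix h x i = if i = i₁ then x i₁ + x i₂ else if i = i₂ then x i₁ - x i₂ else x i := rfl

theorem domain_preimage {d : ℕ} (T : EuclideanSpace ℝ (Fin d) ≃L[ℝ] (Fin d → ℝ))
    (lo hi : Fin d → ℝ) (hlt : ∀ i, lo i < hi i) :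
    IsConvexDomain (T ⁻¹' (univ.pi fun i => Ioo (lo i) (hi i))) := by
  have hne : (T ⁻¹' (univ.pi fun i => Ioo (lo i) (hi i))).Nonempty :=
    Set.Nonempty.preimage (univ_pi_nonempty_iff.mpr fun i => nonempty_Ioo.mpr (hlt i))
      T.surjective
  have hcv : Convex ℝ (T ⁻¹' (univ.pi fun i => Ioo (lo i) (hi i))) :=
    (convex_pi fun i _ => convex_Ioo (lo i) (hi i)).linear_preimage T.toLinearEquiv.toLinearMap
  refine ⟨hne, ?_, ?_, hcv.isConnected hne, hcv⟩
  · rw [← T.image_symm_eq_preimage]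
    exact T.symm.toContinuousLinearMap.lipschitz.isBounded_image
      (Bornology.IsBounded.pi fun i => Metric.isBounded_Ioo (lo i) (hi i))
  · exact (isOpen_set_pi finite_univ fun i _ => isOpen_Ioo).preimage T.continuous

theorem eig_nonneg_of_mem {d : ℕ} {Ω : Set (EuclideanSpace ℝ (Fin d))} {k : ℕ} {lam : ℝ}
    (h : ∃ V : Submodule ℝ (EuclideanSpace ℝ (Fin d) → ℝ),
      Module.finrank ℝ V = k + 1 ∧ (∀ u ∈ V, FiniteEnergy Ω u) ∧
      ∀ u ∈ V, u ≠ 0 → 0 < ∫ x in Ω, u x ^ 2 ∧
        ∫ x in Ω, ‖gradient u x‖ ^ 2 ≤ lam * ∫ x in Ω, u x ^ 2) : 0 ≤ lam := by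
  obtain ⟨V, hV, _, hR⟩ := h
  have hbot : V ≠ ⊥ := by
    intro hb
    rw [hb, finrank_bot] at hV
    omega
  obtain ⟨u, hu, hne⟩ := Submodule.exists_mem_ne_zero_of_ne_bot hbot
  obtain ⟨h1, h2⟩ := hR u hu hne
  have h3 : 0 ≤ ∫ x in Ω, ‖gradient u x‖ ^ 2 := integral_nonneg fun x => sq_nonneg _
  exact nonneg_of_mul_nonneg_left (h3.trans h2) h1

theorem neumannEig_nonneg {d : ℕ} (Ω : Set (EuclideanSpace ℝ (Fin d))) (k : ℕ) :
    0 ≤ neumannEig Ω k :=
  Real.sInf_nonneg fun _ h => eig_nonneg_of_mem h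

theorem column_eq {d : ℕ} (i₀ : Fin d) (k : ℕ) :
    column i₀ k = (PiLp.continuousLinearEquiv 2 ℝ (fun _ : Fin d => ℝ)) ⁻¹'
      (univ.pi fun i => Ioo ((fun _ => 0) i) (update (fun _ => (1 : ℝ)) i₀ (k : ℝ) i)) := by
  ext x; simp [column, box]

theorem column_lt {d : ℕ} (i₀ : Fin d) {k : ℕ} (hk : 1 ≤ k) (i : Fin d) :
    (0 : ℝ) < update (fun _ => (1 : ℝ)) i₀ (k : ℝ) i := by
  by_cases h : i = i₀
  · subst h; simpa using Nat.lt_of_lt_of_le Nat.zero_lt_one hk
  · simp [update_of_ne h]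

theorem column_eig {d : ℕ} {i₁ i₀ : Fin d} (hne : i₀ ≠ i₁) {k : ℕ} (hk : 1 ≤ k) :
    8 ≤ neumannEig (column i₀ k) k := by
  apply le_csInf
  · obtain ⟨C, hC, hprod⟩ := prod_formula (PiLp.continuousLinearEquiv 2 ℝ (fun _ : Fin d => ℝ))
      (fun _ => 0) (update (fun _ => (1 : ℝ)) i₀ (k : ℝ)) (column_lt i₀ hk) hne
    have hdom := domain_preimage (PiLp.continuousLinearEquiv 2 ℝ (fun _ : Fin d => ℝ))
      (fun _ => 0) (update (fun _ => (1 : ℝ)) i₀ (k : ℝ)) (column_lt i₀ hk)
    rw [← column_eq] at hprod hdom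
    refine ⟨_, exists_space hdom.2.1 (EuclideanSpace.proj i₁) i₀ (by simp [hne.symm]) rfl
      (a := 0) (w := 1) (L := k) one_pos (by exact_mod_cast hk) hC ?_ k le_rfl⟩
    intro F G
    have := hprod F G
    simpa [update_of_ne hne.symm] using this
  · rintro lam ⟨V, hV, hE, hR⟩
    exact column_lower i₀ k lam V hV hE hR

theorem alpha_le {d : ℕ} (hd : 3 ≤ d) {k : ℕ} (hk : 1 ≤ k) : alpha k d ≤ 47 / 50 := by
  classical
  let i₁ : Fin d := ⟨0, by omega⟩
  let i₂ : Fin d := ⟨1, by omega⟩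
  let i₀ : Fin d := ⟨2, by omega⟩
  have h21 : i₂ ≠ i₁ := by simp [i₁, i₂]
  have h01 : i₀ ≠ i₁ := by simp [i₁, i₀]
  have h02 : i₀ ≠ i₂ := by simp [i₂, i₀]
  have hk0 : (0 : ℝ) < k := by exact_mod_cast hk
  let T : EuclideanSpace ℝ (Fin d) ≃L[ℝ] (Fin d → ℝ) := (mix h21).toContinuousLinearEquiv
  have hT : ∀ x i, T x i
      = if i = i₁ then x i₁ + x i₂ else if i = i₂ then x i₁ - x i₂ else x i := fun _ _ => rfl
  let lo : Fin d → ℝ := fun i => if i = i₁ then 1 / 100 else if i = i₂ then -(1 / 100) else 0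
  let hi : Fin d → ℝ := fun i => if i = i₁ then 1 / 100 + 99 / 50 else if i = i₂ then 1 / 100
    else update (fun _ => (1 : ℝ)) i₀ (k : ℝ) i
  have hlt : ∀ i, lo i < hi i := by
    intro i
    simp only [lo, hi]
    split_ifs
    · norm_num
    · norm_num
    · exact column_lt i₀ hk i
  set Ω₁ := T ⁻¹' (univ.pi fun i => Ioo (lo i) (hi i)) with hΩ₁
  have hd1 : IsConvexDomain Ω₁ := domain_preimage T lo hi hlt
  have hd2 : IsConvexDomain (column i₀ k) := by
    rw [column_eq]
    exact domain_preimage _ _ _ (column_lt i₀ hk)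
  have hsub : Ω₁ ⊆ column i₀ k := by
    intro x hx
    have h1 := hx i₁ (mem_univ _)
    have h2 := hx i₂ (mem_univ _)
    simp only [hT, lo, hi, if_pos, h21, if_false, mem_Ioo] at h1 h2
    intro i
    by_cases e1 : i = i₁
    · subst e1
      rw [update_of_ne h01.symm]
      constructor <;> linarith only [h1, h2, h1.1, h1.2, h2.1, h2.2]
    · by_cases e2 : i = i₂
      · subst e2
        rw [update_of_ne h02.symm]
        constructor <;> linarith only [h1, h2, h1.1, h1.2, h2.1, h2.2]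
      · have h3 := hx i (mem_univ _)
        simpa only [hT, lo, hi, e1, e2, if_false] using h3
  have hup : neumannEig Ω₁ k ≤ 188 / 25 := by
    apply csInf_le ⟨0, fun _ h => eig_nonneg_of_mem h⟩
    obtain ⟨C, hC, hprod⟩ := prod_formula T lo hi hlt h01
    refine exists_space hd1.2.1 (EuclideanSpace.proj i₁ + EuclideanSpace.proj i₂) i₀
      (by simp [h01.symm, h02.symm]) (κ := 2) ?_ (a := 1 / 100) (w := 99 / 50) (L := k)
      (by norm_num) hk0 hC ?_ k ?_
    · have h1 : ∀ i : Fin d, ((EuclideanSpace.proj i₁ + EuclideanSpace.proj i₂ :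
          EuclideanSpace ℝ (Fin d) →L[ℝ] ℝ) (EuclideanSpace.single i 1)) ^ 2
          = (if i = i₁ then 1 else 0) + if i = i₂ then 1 else 0 := by
        intro i
        by_cases e1 : i = i₁
        · subst e1; simp [h21, h21.symm]
        · by_cases e2 : i = i₂
          · subst e2; simp [h21, h21.symm]
          · simp [e1, e2, Ne.symm e1, Ne.symm e2]
      simp only [h1]
      rw [Finset.sum_add_distrib]
      simp
      norm_num
    · intro F G
      have := hprod F G
      rw [← hΩ₁] at this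
      simpa [hT, lo, hi, h01, h02] using this
    · have h1 : (k : ℝ) / 2 * π / k = π / 2 := by field_simp
      rw [h1]
      have h2 := pi_lt_d4
      have h3 := pi_pos
      linarith only [h2, h3, mul_pos_of_neg_of_neg (Mathlib.Tactic.Linarith.sub_neg_of_lt h2) (Mathlib.Tactic.Linarith.sub_neg_of_lt h3)]
  have hlow : 8 ≤ neumannEig (column i₀ k) k := column_eig h01 hk
  have hfin : alpha k d ≤ neumannEig Ω₁ k / neumannEig (column i₀ k) k := by
    apply csInf_le
    · refine ⟨0, ?_⟩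
      rintro r ⟨Ω, Ω', _, _, _, rfl⟩
      exact div_nonneg (neumannEig_nonneg _ _) (neumannEig_nonneg _ _)
    · exact ⟨Ω₁, column i₀ k, hd1, hd2, hsub, rfl⟩
  refine hfin.trans ?_
  rw [div_le_iff₀ (by linarith only [hlow])]
  linarith only [hup, hlow]

end Pool.Agent.Work.MP_382727_an
end
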